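import Pool.Agent.Q49.WU.Groups
import Pool.Agent.Q193.LT.Per

/-!
# The period conjecture in one degree, and cubic hypersurfaces

Let `K` be a number field with an embedding in `ℂ`, and let `M` be the category of motives over `K` in
the sense of André, a semisimple abelian category with Tate twists `N ↦ N(a)`. For a separated scheme `X`
of finite type over `K` and `j ≥ 0` let `(D j).H m n X` be the motive `Gr^W_{j+2m} H^n_c(X)`. For smooth
projective `Y` the motive `(D j).H 0 n Y` is `h^j(Y)` if `n = j`, and zero for all other `n`.

`P` consists of the de Rham realization, the Betti realization, the comparison isomorphism and, for each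
motive `N`, the dimension of the motivic Galois group of `N`; `mt N` is the dimension of the Mumford-Tate
group of the Betti realization of `N`, and `P.tr N` the transcendence degree of the field of periods of
`N`. `GPCMT P mt N` are the equalities `tr N = mt N = dim G_mot(N)`: the transcendence degree of the
periods is the dimension of the Mumford-Tate group (the statement of question Q1 for `N = h^j(Y)`), and
the Mumford-Tate group has the dimension of the motivic Galois group.

**Theorem.** (1) For every `j ≥ 0` the equalities are true for all finite direct sums of Tate twists of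
motives `h^j(Y)` of smooth projective varieties `Y` over `K` (and, for even `j`, of Tate motives), if and
only if they are true for all finite direct sums of Tate twists (and, for even `j`, of Tate motives) of the
motives `Gr^W_{j+2(a-1)} H^n_c(T = 1)` of the smooth affine cubic hypersurfaces `T(x, y, z) = 1` of all
trilinear forms `T` over `K` in `a` variables `x_p` and any numbers of variables `y_q`, `z_r`. Then question
Q1 has a positive answer for all smooth projective varieties over `K` in this degree `j`.

(2) If `K = ℚ`, the hypersurfaces `∑_{(p, q, r) ∈ H} x_p y_q z_r = 1` of all finite sets `H` of triples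
suffice.

(3) Unconditionally, the equalities are true for all finite direct sums of Tate motives and of Tate twists
of motives `Gr^W_{2(a-1)} H^n_c(T = 1)`, for trilinear forms `T` over `K` in `a` variables `x_p` (`j = 0`).
-/

set_option autoImplicit false

open CategoryTheory CategoryTheory.Limits AlgebraicGeometry Pool.Agent.Y116.UV Pool.Agent.Z125.UN
  Pool.Agent.Q193.LT Pool.Agent.Q49.WU

universe v u

namespace Pool.Agent.Results.MP_cbf1af_ag.DegreeByDegree

/-- **The period conjecture in one degree, and cubic hypersurfaces.** See the explanations above. The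
known case used for the last part is the case of the Artin-Tate motives (the period fields are algebraic
over `K` or over `K(2πi)`, and `π` is transcendental). -/
theorem result {K : Type} [Field K] [NumberField K] [Algebra K ℂ] {M : Type u}
    [Category.{v} M] [Abelian M] {D : ℤ → WeightData K M} (h : ∀ j, IsWMotives (D j))
    {P : PeriodData K M} {mt : M → ℕ} (hP : IsPeriodMT P mt)
    (artin : SumsAt (D 0) (OfProjAt (D 0)) (GPCMT P mt)) :
    (∀ j, (SumsAt (D j) (OfProjAt (D j)) (GPCMT P mt) ↔
        SumsAt (D j) (OfFormsAt (D j)) (GPCMT P mt)) ∧
      (SumsAt (D j) (OfFormsAt (D j)) (GPCMT P mt) → ∀ Y : Sch K, SmoothProj Y →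
        ∀ n, P.tr ((D j).H 0 n Y) = mt ((D j).H 0 n Y))) ∧
    (Frac K → ∀ j, SumsAt (D j) (OfProjAt (D j)) (GPCMT P mt) ↔
        SumsAt (D j) (OfGraphsAt (D j)) (GPCMT P mt)) ∧
    SumsAt (D 0) (OfFormsAt (D 0)) (GPCMT P mt) := by
  have hf : Inherits (GPCMT P mt) := GPCMT.factor hP
  have h1 := fun j => sumsAt_iff (h j) hf
  refine ⟨fun j => ⟨h1 j, fun h2 Y hY n => ?_⟩, fun hF j => sumsAt_graph (h j) hf hF,
    (h1 0).mp artin⟩
  obtain ⟨e⟩ := (h j).weight.twZero
  have h3 : FactorAt (D j) (OfProjAt (D j)) ((D j).H 0 n Y) := by
    refine ⟨Unit, inferInstance, fun _ => (D j).H 0 n Y, fun _ => 0,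
      biproduct.lift fun _ : Unit => e.inv.app ((D j).H 0 n Y),
      biproduct.desc fun _ : Unit => e.hom.app ((D j).H 0 n Y),
      fun _ => Or.inr ⟨Y, n, hY, rfl⟩, ?_⟩
    rw [biproduct.lift_desc, Fintype.sum_unique]
    exact e.inv_hom_id_app _
  exact ((factorAt_iff hf _).mpr ((h1 j).mpr h2) _ h3).1

end Pool.Agent.Results.MP_cbf1af_ag.DegreeByDegree
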