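import Mathlib
import Pool.Agent.Q29.OvX
import Pool.Agent.TH818.AP.Beta

/-!
# Periods of Fermat curves over arbitrary constants: uniform distribution of the multiples of the values

For rational numbers `q`, `ρ` the numbers `B(q, ρ) = ∫_0^1 x ^ (q - 1) (1 - x) ^ (ρ - 1) dx` are periods of Fermat curves. Let
`ρ_1, …, ρ_s` be positive real numbers such that the `ρ_i` and the `ρ_i - ρ_k`, `i ≠ k`, are not integers.
Let `ξ_1, …, ξ_g` be ARBITRARY real numbers, which may depend on `T` and may be as large as `T ^ H`, for instance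
`π`, the periods of other varieties and the `ρ_i`.
Let `F` be a number field of degree at most `m` with an embedding in the complex numbers, and let `X` be any finite set of
numbers of `F` in `[a, b]` which are quotients of integers of `F` with conjugates at most `T`. For all but `C T ^ ε |X| ^ (n - 1)`
of the `n`-tuples of elements `q_j` of `X` the following holds: every value `y` of a polynomial of partial degrees at most `d` at
the numbers `B(q_j, ρ_i)`, whose coefficients are polynomials in the `ξ_i` of partial degrees at most `d` with integer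
coefficients at most `T ^ A`, one of the nonconstant ones being at least `T ^ (-H)` in absolute value, has uniformly distributed
multiples at all the scales `M` between `T ^ B` and `T ^ E`: `k y`, `k < M`, also for `k` in the set of the powers of fixed exponent
or of the prime numbers in a residue class, is uniformly distributed modulo one with an error `M ^ (1 - κ)`. The constants do not
depend on the field, on the set `X` and on the numbers `ξ_i`.
In particular this holds for all finite sets `X` of rational numbers of height at most `T` in `[a, b]` (`F = ℚ`).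

The proof uses the theorem of helper23 on approximate relations over arbitrary constants at algebraic points (`Q23.AQ.fewR`,
from the starting files `Y124`, `Y771`), the independence of the functions (`TH818.AP.beta`), an inverse theorem for the sums of
Weyl and a form of the estimate of Vinogradov for the sums over primes with a power saving (`H373R2/NB`, `W110/HV`).
-/

set_option autoImplicit false

namespace Pool.Agent.Results.MP_cbf1af_ag.MultiplesOfFermatPeriods

open Finset Polynomial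

/-- The multiples of `x` are uniformly distributed at the scale `M`, with a power saving, along all polynomials of degree
at most `K` and along the primes of all residue classes:

* for every nonzero integer `b` with `|b| ≤ M ^ κ`, every `1 ≤ k ≤ K` and every real polynomial `R` of degree less than
  `k`, the number of `0 ≤ n < M` with the fractional part of `b x n ^ k + R(n)` in `[u, v)` is `(v - u) M` up to
  `M ^ (1 - κ)`, for all `0 ≤ u ≤ v ≤ 1`;
* for every such `b`, every `1 ≤ d ≤ M ^ κ`, every `r` and every real `β`, the number of primes `p ≤ M` with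
  `p ≡ r (mod d)` and the fractional part of `b x p + β` in `[u, v)` is `(v - u)` times the number of all the primes
  `p ≤ M` with `p ≡ r (mod d)`, up to `M ^ (1 - κ)`. -/
def Good (κ : ℝ) (K M : ℕ) (x : ℝ) : Prop :=
  (∀ b : ℤ, b ≠ 0 → |(b : ℝ)| ≤ (M : ℝ) ^ κ → ∀ k : ℕ, 1 ≤ k → k ≤ K → ∀ R : ℝ[X], R.degree < k →
    ∀ u v : ℝ, 0 ≤ u → u ≤ v → v ≤ 1 →
      |(((range M).filter fun n : ℕ => u ≤ Int.fract (b * x * (n : ℝ) ^ k + R.eval (n : ℝ)) ∧
          Int.fract (b * x * (n : ℝ) ^ k + R.eval (n : ℝ)) < v).card : ℝ) - (v - u) * M| ≤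
        (M : ℝ) ^ (1 - κ)) ∧
  (∀ b : ℤ, b ≠ 0 → |(b : ℝ)| ≤ (M : ℝ) ^ κ → ∀ d r : ℕ, 1 ≤ d → (d : ℝ) ≤ (M : ℝ) ^ κ → ∀ β : ℝ,
    ∀ u v : ℝ, 0 ≤ u → u ≤ v → v ≤ 1 →
      |(((range (M + 1)).filter fun p : ℕ => (p.Prime ∧ p ≡ r [MOD d]) ∧
          (u ≤ Int.fract (b * x * p + β) ∧ Int.fract (b * x * p + β) < v)).card : ℝ) -
        (v - u) * ((range (M + 1)).filter fun p : ℕ => p.Prime ∧ p ≡ r [MOD d]).card| ≤
        (M : ℝ) ^ (1 - κ))

/-- The value at `y` of the polynomial `P` whose coefficients are integer polynomials in the numbers `ξ_1, …, ξ_g`. -/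
noncomputable def value {g : ℕ} {τ : Type} (ξ : Fin g → ℝ) (y : τ → ℝ) (P : MvPolynomial τ (MvPolynomial (Fin g) ℤ)) : ℝ :=
  MvPolynomial.eval₂ (MvPolynomial.aeval ξ : MvPolynomial (Fin g) ℤ →ₐ[ℤ] ℝ).toRingHom y P

/-- The polynomials of degree at most `d` in every variable whose coefficients are polynomials in `ξ_1, …, ξ_g` of degree at most
`d` in every variable with integer coefficients of absolute value at most `R`, with a nonconstant coefficient whose value is at
least `r` in absolute value. -/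
def Admissible {g : ℕ} {τ : Type} (ξ : Fin g → ℝ) (d : ℕ) (R r : ℝ) (P : MvPolynomial τ (MvPolynomial (Fin g) ℤ)) : Prop :=
  (∀ j, P.degreeOf j ≤ d) ∧ (∀ e i, (P.coeff e).degreeOf i ≤ d) ∧ (∀ e u, |(((P.coeff e).coeff u : ℤ) : ℝ)| ≤ R) ∧
    ∃ e, e ≠ 0 ∧ r ≤ |MvPolynomial.aeval ξ (P.coeff e)|

/-- The numbers of a number field `F`, with an embedding `ι`, which are in `[a, b]` and are quotients of integers of `F` all of
whose conjugates have absolute value at most `T`. -/
def IsPoint {F : Type} [Field F] (ι : F →+* ℂ) (a b T : ℝ) (x : F) : Prop :=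
  (∃ t : ℝ, a ≤ t ∧ t ≤ b ∧ ι x = t) ∧
    ∃ α β : NumberField.RingOfIntegers F, β ≠ 0 ∧ (∀ φ : F →+* ℂ, ‖φ α‖ ≤ T ∧ ‖φ β‖ ≤ T) ∧ x = α / β

/-- The `n`-tuples `q` of numbers of `X` for which there are an admissible polynomial `P` and an `M` between `T ^ B` and `T ^ E`
such that the multiples of its value at the numbers `f_i(q_j)` are not uniformly distributed at the scale `M`. -/
def Exceptional {κ F : Type} [Field F] {g : ℕ} (n : ℕ) (f : κ → ℝ → ℝ) (ι : F →+* ℂ) (X : Finset F) (ξ : Fin g → ℝ)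
    (d K : ℕ) (A H κ₀ B E T : ℝ) : Set (Fin n → F) :=
  {q | (∀ j, q j ∈ X) ∧
    ∃ P : MvPolynomial (Fin n × κ) (MvPolynomial (Fin g) ℤ), Admissible ξ d (T ^ A) (T ^ (-H)) P ∧
      ∃ M : ℕ, T ^ B ≤ (M : ℝ) ∧ (M : ℝ) ≤ T ^ E ∧ ¬ Good κ₀ K M (value ξ (fun z => f z.2 (ι (q z.1)).re) P)}

/-- The assertion for the functions `f_i` on `[a, b]`. -/
def FewExceptions {κ : Type} (f : κ → ℝ → ℝ) (a b : ℝ) : Prop :=
  ∀ (m n g d K : ℕ) (H A ε : ℝ), 0 ≤ H → 0 ≤ A → 0 < ε → ∃ B : ℝ, 1 ≤ B ∧ ∀ E : ℝ, ∃ κ₀ : ℝ, 0 < κ₀ ∧ ∃ C T₀ : ℝ,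
    ∀ (F : Type) [Field F] [NumberField F], Module.finrank ℚ F ≤ m → ∀ (ι : F →+* ℂ) (ξ : Fin g → ℝ) (T : ℝ), T₀ ≤ T →
      (∀ i, |ξ i| ≤ T ^ H) → ∀ X : Finset F, (∀ x ∈ X, IsPoint ι a b T x) →
        (Exceptional n f ι X ξ d K A H κ₀ B E T).Finite ∧
        ((Exceptional n f ι X ξ d K A H κ₀ B E T).ncard : ℝ) ≤ C * T ^ ε * (X.card : ℝ) ^ (n - 1)

/-- Euler's integral `B(t, ρ) = ∫_0^1 x^(t-1) (1-x)^(ρ-1) dx`. -/
noncomputable def B (t ρ : ℝ) : ℝ := ∫ x in (0 : ℝ)..1, x ^ (t - 1) * (1 - x) ^ (ρ - 1)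

theorem few {κ : Type} [Fintype κ] [DecidableEq κ] (f : κ → ℝ → ℝ) (a b : ℝ)
    (han : ∀ i, AnalyticOnNhd ℝ (f i) (Set.Icc a b)) (hind : Pool.Agent.Y120.AInd f a b) : FewExceptions f a b := by
  intro m n g d K H A ε hH hA hε
  obtain ⟨B, hB, h⟩ := Pool.Agent.Q29.Eqd.badX_count f a b han hind m n g d K H A ε hH hA hε
  refine ⟨B, hB, fun E => ?_⟩
  obtain ⟨κ₀, C, T₀, hκ₀, hC⟩ := h E
  refine ⟨κ₀, hκ₀, C, T₀, fun F _ _ hF ι ξ T hT hξ X hX => ?_⟩
  have hsub : Exceptional n f ι X ξ d K A H κ₀ B E T ⊆ Pool.Agent.Q29.Eqd.BadX n g d K ι X f (T ^ A) (T ^ (-H)) κ₀ (T ^ B) (T ^ E) ξ := by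
    rintro q ⟨hq, P, ⟨hP1, hP2, hP3, hP4⟩, hbad⟩
    exact ⟨hq, P, hP1, hP2, hP3, hP4, hbad⟩
  have hfin := Pool.Agent.Q29.Eqd.badX_fin n g d K ι X f (T ^ A) (T ^ (-H)) κ₀ (T ^ B) (T ^ E) ξ
  refine ⟨hfin.subset hsub, le_trans ?_ (hC F hF ι ξ T hT hξ X hX)⟩
  exact_mod_cast Set.ncard_le_ncard hsub hfin

/-- the assertion depends only on the values of the functions on the interval -/
theorem few_congr {κ : Type} (f g : κ → ℝ → ℝ) (a b : ℝ) (hfg : ∀ i, ∀ t ∈ Set.Icc a b, f i t = g i t)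
    (h : FewExceptions g a b) : FewExceptions f a b := by
  intro m n g' d K H A ε hH hA hε
  obtain ⟨B₁, hB, h1⟩ := h m n g' d K H A ε hH hA hε
  refine ⟨B₁, hB, fun E => ?_⟩
  obtain ⟨κ₀, hκ₀, C, T₀, hC⟩ := h1 E
  refine ⟨κ₀, hκ₀, C, T₀, fun F _ _ hF ι ξ T hT hξ X hX => ?_⟩
  have hset : Exceptional n f ι X ξ d K A H κ₀ B₁ E T = Exceptional n g ι X ξ d K A H κ₀ B₁ E T := by
    ext q
    refine and_congr_right fun hq => ?_
    have he : (fun z : Fin n × κ => f z.2 (ι (q z.1)).re) = fun z => g z.2 (ι (q z.1)).re := by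
      funext z
      obtain ⟨⟨t, ht1, ht2, ht3⟩, -⟩ := hX _ (hq z.1)
      rw [ht3, Complex.ofReal_re]
      exact hfg _ t ⟨ht1, ht2⟩
    simp only [he]
  rw [hset]
  exact hC F hF ι ξ T hT hξ X hX

/-- Let `0 < a < b` and let `ρ_1, …, ρ_s` be positive real numbers such that no `ρ_i` and no `ρ_i - ρ_k`, `i ≠ k`, is an
integer. The assertion holds for the functions `B(t, ρ_i)`. -/
theorem result {s : ℕ} (ρ : Fin s → ℝ) (hρ : ∀ i, 0 < ρ i) (h1 : ∀ i, ∀ z : ℤ, ρ i ≠ z)
    (h2 : ∀ i k, i ≠ k → ∀ z : ℤ, ρ i - ρ k ≠ z) (a b : ℝ) (ha : 0 < a) (hab : a < b) :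
    FewExceptions (fun i t => B t (ρ i)) a b :=
  few_congr _ (fun i => TH818.AP.Bt (ρ i)) a b (fun i t ht => TH818.AP.betaInt (ρ i) t (hρ i) (ha.trans_le ht.1))
    (few _ a b (fun i t ht => TH818.AP.betaAn (ρ i) t (hρ i) (ha.trans_le ht.1))
      (fun d => TH818.AP.beta s d ρ a b hρ h1 h2 ha hab))

end Pool.Agent.Results.MP_cbf1af_ag.MultiplesOfFermatPeriods
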