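import Pool.Agent.Q193.LT.Sums
import Pool.Agent.Q193.LT.Per

/-!
# The period conjecture over a number field, dimension by dimension

Let `K` be a number field with an embedding in `ℂ`, and let `M` be the category of motives over `K` in
the sense of André, a semisimple abelian category with Tate twists `N ↦ N(a)`. For a separated scheme `X`
of finite type over `K` let `D.H i X` be the object of `M` given by the graded object of the weight
filtration of the cohomology with compact supports `H^i_c(X)`; for smooth projective `X` it is the motive
`h^i(X)`.

`P` consists of the de Rham realization, the Betti realization, the comparison isomorphism and, for each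
motive `N`, the dimension of the motivic Galois group of `N`; `mt N` is the dimension of the Mumford-Tate
group of the Betti realization of `N`, and `P.tr N` the transcendence degree of the field of periods of
`N`. `GPCMT P mt N` are the equalities `tr N = mt N = dim G_mot(N)`: the transcendence degree of the
periods is the dimension of the Mumford-Tate group (the statement of question Q1 for `N = h^j(Y)`), and
the Mumford-Tate group has the dimension of the motivic Galois group.

For a trilinear form `T(x, y, z) = ∑ t_{ijl} x_i y_j z_l` with coefficients in `K`, in any numbers of
variables `x_1, …, x_a`, `y_1, …, y_b`, `z_1, …, z_c`, the affine cubic hypersurface `T(x, y, z) = 1` is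
smooth over `K`.

**Theorem.** (1) For all `n`, the equalities are true for all finite direct sums of Tate twists of motives
`h^i(Y)` of smooth projective varieties `Y` of dimension at most `n` over `K` if and only if they are true
for all finite direct sums of Tate motives and of Tate twists of `Gr^W H^i_c(T = 1)` for trilinear forms
`T` over `K` such that one of the three blocks of variables has at most `n + 2` variables (the other two
blocks are arbitrary). Then question Q1 has a positive answer for all smooth projective varieties of
dimension at most `n` over `K` and all degrees `j`.

(2) Unconditionally, the equalities are true for the finite direct sums of Tate motives and Tate twists of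
`Gr^W H^i_c(T = 1)` if one of the three blocks of variables of each `T` has at most two variables.
-/

set_option autoImplicit false

open CategoryTheory CategoryTheory.Limits AlgebraicGeometry Pool.Agent.Y116.UV Pool.Agent.Z125.UN
  Pool.Agent.Q193.LT

universe v u

namespace Pool.Agent.Results.MP_cbf1af_ag.NumberFieldCubics

/-- **The period conjecture over a number field, dimension by dimension.** See the explanations above. The
known case used for the second part is the case of the Artin-Tate motives (the period fields are algebraic
over `K` or over `K(2πi)`, and `π` is transcendental). -/
theorem result {K : Type} [Field K] [NumberField K] [Algebra K ℂ] {M : Type u}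
    [Category.{v} M] [Abelian M] {D : CompactData K M} (h : IsMotives D) {P : PeriodData K M}
    {mt : M → ℕ} (hP : IsPeriodMT P mt) :
    (∀ n : ℕ, (SumsHave D (OfProj D n) (GPCMT P mt) ↔ SumsHave D (OfForms D (n + 2)) (GPCMT P mt)) ∧
      (SumsHave D (OfForms D (n + 2)) (GPCMT P mt) → ∀ Y : Sch K, SmoothProj Y →
        topologicalKrullDim Y.left ≤ n → ∀ j, P.tr (D.H j Y) = mt (D.H j Y))) ∧
    (SumsHave D (OfProj D 0) (GPCMT P mt) → SumsHave D (OfForms D 2) (GPCMT P mt)) := by
  have h1 := fun n => sums_dim_iff h.compact h.generated h.semisimple (GPCMT.factor hP) n
  refine ⟨fun n => ⟨h1 n, fun h2 Y hY hn j => ?_⟩, (h1 0).mp⟩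
  obtain ⟨J, hJ, N, a, i, r, hN, hir⟩ :=
    (FactorOfSum.self h.compact (G := OfProj D n) (M := D.H j Y) ⟨Y, j, hY, hn, rfl⟩).retract
  exact (GPCMT.factor hP i r hir ((h1 n).mpr h2 J N a hN)).1

end Pool.Agent.Results.MP_cbf1af_ag.NumberFieldCubics
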