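import Pool.Agent.Q229.RAE
import Pool.Agent.TH818.AP.Beta

/-!
# Periods of Fermat curves at ALL rational parameters near almost every real parameter

The periods of the Fermat curve `x^m + y^m = 1` are, up to algebraic factors, the numbers
`B(r, s) = ∫_0^1 x^(r-1) (1-x)^(s-1) dx` with `r, s ∈ (1/m)ℤ`, and `π`. We consider `π` and the numbers `B(q_j, ρ_(j,i))`
for `n`-tuples of rational numbers `q_j`.

The starting file `FermatPeriods` bounds the number of exceptional tuples of height `T` by `T^(2(n-1)+β)` for some `β < 2`;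
with the counting theorem of `Pool.Agent.Y120.RealPolys` (`β` arbitrarily small) and coverings we obtain all rational points
near all real points outside a set of small Hausdorff dimension.
-/

set_option autoImplicit false

open MeasureTheory Filter

namespace Pool.Agent.Results.MP_cbf1af_ag.RationalsNearRealPoints

/-- Euler's integral `B(r, s) = ∫_0^1 x^(r-1) (1-x)^(s-1) dx`. -/
noncomputable def B (r s : ℝ) : ℝ := ∫ x in (0 : ℝ)..1, x ^ (r - 1) * (1 - x) ^ (s - 1)

/-- The `m n + 1` numbers `π` and `B(q_j, ρ_(j,i))`, `1 ≤ j ≤ n`, `1 ≤ i ≤ m`. -/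
noncomputable def periods {n m : ℕ} (ρ : Fin n → Fin m → ℝ) (q : Fin n → ℚ) (x : Option (Fin n × Fin m)) : ℝ :=
  match x with
  | none => Real.pi
  | some (j, i) => B (q j) (ρ j i)

/-- **Theorem.** Let `n ≥ 1`, let `ρ_(j,1), …, ρ_(j,m) > 0` be such that no `ρ_(j,i)` and no `ρ_(j,i) - ρ_(j,k)` (`i ≠ k`) is an
integer, and consider the numbers `π`, `B(q_j, ρ_(j,i))` (domain: `x_j > 0`). Then for every `τ > 0` there is a set `Z ⊂ ℝ^n` of Hausdorff dimension at most
`2 (n - 1) / τ` (dimension `0` for `n = 1`), and of Lebesgue measure zero if `2 (n - 1) < n τ`, such that for all `x ∉ Z` in the domain,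
all `d`, `A`, some `B` and all sufficiently large `T` the following holds for ALL rational points `q` with denominators at most `T`
and `|x_j - q_j| ≤ T ^ (-τ)`: every nonzero integer polynomial of degree at most `d` in each variable with coefficients at
most `T ^ A` takes at these numbers a value larger than `T ^ (-B)` in absolute value. -/
theorem result (n m : ℕ) (hn : 1 ≤ n) (ρ : Fin n → Fin m → ℝ) (hρ : ∀ j i, 0 < ρ j i)
    (h1 : ∀ j i, ∀ z : ℤ, ρ j i ≠ z) (h2 : ∀ j i k, i ≠ k → ∀ z : ℤ, ρ j i - ρ j k ≠ z) (τ : ℝ) (hτ : 0 < τ) :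
    ∃ Z : Set (Fin n → ℝ), dimH Z ≤ ENNReal.ofReal (2 * ((n : ℝ) - 1) / τ) ∧
      (2 * ((n : ℝ) - 1) < n * τ → volume Z = 0) ∧
      ∀ x : Fin n → ℝ, (∀ j, 0 < x j) → x ∉ Z → ∀ (d : ℕ) (A : ℝ), ∃ B : ℝ, ∀ᶠ T : ℝ in atTop,
        ∀ q : Fin n → ℚ, (∀ j, ((q j).den : ℝ) ≤ T ∧ |x j - q j| ≤ T ^ (-τ)) →
        ∀ P : MvPolynomial (Option (Fin n × Fin m)) ℤ, P ≠ 0 → (∀ z, P.degreeOf z ≤ d) →
          (∀ u, |((P.coeff u : ℤ) : ℝ)| ≤ T ^ A) → T ^ (-B) < |MvPolynomial.aeval (periods ρ q) P| := by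
  refine Pool.Agent.Q229.RA.masterOR hn (fun j i t => TH818.AP.Bt (ρ j i) t) (fun _ => Set.Ioi 0)
    (fun _ => isOpen_Ioi) (fun j i t ht => TH818.AP.betaAn (ρ j i) t (hρ j i) ht) ?_ (fun q => periods ρ q)
    (fun _ => rfl) ?_ τ hτ
  · intro j a b hab hsub d
    exact TH818.AP.beta m d (ρ j) a b (hρ j) (h1 j) (h2 j) (hsub ⟨le_rfl, hab.le⟩) hab
  · intro q hq j i
    exact TH818.AP.betaInt (ρ j i) (q j) (hρ j i) (hq j)

end Pool.Agent.Results.MP_cbf1af_ag.RationalsNearRealPoints
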